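import Pool.Agent.H8.PU.Targets

/-!
# Invariance of satisfaction under bijections
-/

set_option autoImplicit false

namespace Pool.Agent.H49.PU

open Pool.Agent.H69.Sp Pool.Agent.H69.Mt Pool.Agent.H16.TO Pool.Agent.H8.PL Pool.Agent.H8.PU

theorem pf_eq : Y_EQ := by
  intro A B e P R P' R' φ
  induction φ with
  | un i v =>
    intro hP _ s
    exact hP i (by simp [C2.bd]) (s v)
  | bi i v w =>
    intro _ hR s
    exact hR i (by simp [C2.bd]) (s v) (s w)
  | eq v w =>
    intro _ _ s
    exact ⟨fun h => congrArg e h, fun h => e.injective h⟩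
  | neg φ ih =>
    intro hP hR s
    exact not_congr (ih hP hR s)
  | and φ ψ ih1 ih2 =>
    intro hP hR s
    have h1 : φ.bd ≤ (C2.and φ ψ).bd := le_max_left _ _
    have h2 : ψ.bd ≤ (C2.and φ ψ).bd := le_max_right _ _
    exact and_congr
      (ih1 (fun i hi => hP i (lt_of_lt_of_le hi h1)) (fun i hi => hR i (lt_of_lt_of_le hi h1)) s)
      (ih2 (fun i hi => hP i (lt_of_lt_of_le hi h2)) (fun i hi => hR i (lt_of_lt_of_le hi h2)) s)
  | cnt k v φ ih =>
    intro hP hR s
    have h := ih hP hR
    have hset : {b | φ.Sat P' R' (Function.update (fun w => e (s w)) v b)} =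
        e '' {a | φ.Sat P R (Function.update s v a)} := by
      ext b
      simp only [Set.mem_image, Set.mem_setOf_eq]
      have hu : ∀ a, (fun w => e (Function.update s v a w)) =
          Function.update (fun w => e (s w)) v (e a) := by
        intro a
        funext w
        by_cases hw : w = v
        · subst hw; simp
        · simp [Function.update_of_ne hw]
      constructor
      · intro hb
        refine ⟨e.symm b, ?_, e.apply_symm_apply b⟩
        rw [h, hu, e.apply_symm_apply]
        exact hb
      · rintro ⟨a, ha, rfl⟩
        rw [h, hu] at ha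
        exact ha
    change k ≤ {a | φ.Sat P R (Function.update s v a)}.ncard ↔
      k ≤ {b | φ.Sat P' R' (Function.update (fun w => e (s w)) v b)}.ncard
    rw [hset, Set.ncard_image_of_injective _ e.injective]

end Pool.Agent.H49.PU
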