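import Pool.Agent.H8.PU.Targets

/-!
# The formulas of the spectra, without colours
-/

set_option autoImplicit false

namespace Pool.Agent.H49.PU

open Pool.Agent.H69.Sp Pool.Agent.H69.Mt Pool.Agent.H16.TO Pool.Agent.H8.PL Pool.Agent.H8.PU

theorem pf_p1 (hP1 : Z_P1) (hUC : Y_UC) : Y_P1 := by
  intro S hS
  obtain ⟨φ, r, hr, h1⟩ := hP1 S hS
  obtain ⟨φ', M, h2⟩ := hUC φ
  refine ⟨φ', r, 2 * (2 * M + 1), hr, by omega, fun n hn => ?_⟩
  rw [h1 n hn, h2]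
  have e : 2 * (2 * M + 1) * ((n ^ r - 1) ^ 2 + 1) =
      (2 * M + 1) * (2 * (n ^ r - 1) ^ 2 + 2) := by ring
  rw [e]
  constructor
  · intro h
    exact ⟨_, h, rfl⟩
  · rintro ⟨m, hm, h⟩
    have : 2 * (n ^ r - 1) ^ 2 + 2 = m := Nat.eq_of_mul_eq_mul_left (by omega) h
    rw [this]
    exact hm

end Pool.Agent.H49.PU
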