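import Pool.Agent.H8.PU.Targets
import Pool.Agent.H69.Mt.Def

/-!
# The equivalence, without colours
-/

set_option autoImplicit false

namespace Pool.Agent.H49.PU

open Pool.Agent.H69.Sp Pool.Agent.H69.Mt Pool.Agent.H16.TO Pool.Agent.H8.PL Pool.Agent.H8.PU

theorem pf_p2 (hP1 : Y_P1) (hSP : Y_SP) (hPB : Y_PB) : Y_P2 := by
  constructor
  · intro h φ
    exact h _ (hSP φ)
  · intro h S hS
    obtain ⟨φ, r, c, hr, hc, h1⟩ := hP1 S hS
    have hX := hPB _ (h φ) r c hr hc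
    set X : Set ℕ := {n | 4 ≤ n ∧ c * ((n ^ r - 1) ^ 2 + 1) ∈ posCompl (specPl φ)} with hXdef
    have hX4 : ∀ n, 4 ≤ n → (n ∈ X ↔ n ∉ S) := by
      intro n hn
      rw [h1 n hn]
      constructor
      · rintro ⟨_, h2⟩
        exact h2.2
      · intro h2
        exact ⟨hn, Nat.mul_pos hc (Nat.succ_pos _), h2⟩
    refine wrap (P := fun N E v => v 0 ∈ X ∨ ((v 0 = 2 ∧ 2 ∉ S) ∨ (v 0 = 3 ∧ 3 ∉ S)))
      ((mem_ed hX 0).or (((FD.num 2 0).and (FD.const (2 ∉ S))).or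
        ((FD.num 3 0).and (FD.const (3 ∉ S)))).ed) (fun h0 => absurd h0.1 (lt_irrefl 0)) ?_
    intro n hn
    simp only [Function.update_self, exists_const_iff]
    constructor
    · rintro ⟨_, h2⟩
      refine ⟨⟨fun _ _ => False⟩, ?_⟩
      by_cases h4 : 4 ≤ n
      · exact Or.inl ((hX4 n h4).2 h2)
      · have : n = 2 ∨ n = 3 := by omega
        rcases this with rfl | rfl
        · exact Or.inr (Or.inl ⟨rfl, h2⟩)
        · exact Or.inr (Or.inr ⟨rfl, h2⟩)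
    · rintro ⟨_, h2 | ⟨rfl, h2⟩ | ⟨rfl, h2⟩⟩
      · exact ⟨by omega, (hX4 n h2.1).1 h2⟩
      · exact ⟨by norm_num, h2⟩
      · exact ⟨by norm_num, h2⟩

end Pool.Agent.H49.PU
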