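import Pool.Agent.H8.PU.Targets

/-!
# Planar spectra without colours are spectra
-/

set_option autoImplicit false

namespace Pool.Agent.H49.PU

open Pool.Agent.H69.Sp Pool.Agent.H69.Mt Pool.Agent.H16.TO Pool.Agent.H8.PL Pool.Agent.H8.PU

/-- the formula with binary relation symbols -/
def toC : G2 → C2
  | .adj v w => .bi 0 v w
  | .eq v w => .eq v w
  | .neg φ => .neg (toC φ)
  | .and φ ψ => .and (toC φ) (toC ψ)
  | .cnt k v φ => .cnt k v (toC φ)

theorem sat_toC {V : Type} (G : SimpleGraph V) (P : ℕ → V → Prop) (φ : G2) :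
    ∀ s : Bool → V, ((toC φ).Sat P (fun _ => G.Adj) s ↔ φ.Sat G s) := by
  induction φ with
  | adj v w => intro s; exact Iff.rfl
  | eq v w => intro s; exact Iff.rfl
  | neg φ ih => intro s; exact not_congr (ih s)
  | and φ ψ ih1 ih2 => intro s; exact and_congr (ih1 s) (ih2 s)
  | cnt k v φ ih =>
    intro s
    change k ≤ {a | (toC φ).Sat P (fun _ => G.Adj) (Function.update s v a)}.ncard ↔
      k ≤ {a | φ.Sat G (Function.update s v a)}.ncard
    have : {a | (toC φ).Sat P (fun _ => G.Adj) (Function.update s v a)} =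
        {a | φ.Sat G (Function.update s v a)} := Set.ext fun a => ih _
    rw [this]

theorem spec_toC (φ : G2) : specPl φ = specP (toC φ) := by
  ext n
  constructor
  · rintro ⟨h0, G, hG, h⟩
    exact ⟨h0, fun _ _ => True, G, hG, fun s => (sat_toC G _ φ s).2 (h s)⟩
  · rintro ⟨h0, P, G, hG, h⟩
    exact ⟨h0, G, hG, fun s => (sat_toC G P φ s).1 (h s)⟩

theorem pf_sp (hSP : Z_SP) : Y_SP := by
  intro φ
  rw [spec_toC]
  exact hSP _

end Pool.Agent.H49.PU
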