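import Pool.Agent.H8.PU.Targets

/-!
# The number of the vertices of a graph with gadgets
-/

set_option autoImplicit false

namespace Pool.Agent.H49.PU

open Pool.Agent.H69.Sp Pool.Agent.H69.Mt Pool.Agent.H16.TO Pool.Agent.H8.PL Pool.Agent.H8.PU

theorem pf_sz : Y_SZ := by
  classical
  intro V _ G M hG
  haveI := Fintype.ofFinite V
  let L : Finset V := Finset.univ.filter fun x => dg G x = 1
  let D : Finset V := Finset.univ.filter fun x => dg G x = 2
  let C : Finset V := Finset.univ.filter fun x => 3 ≤ dg G x
  let DC : Finset V := Finset.univ.filter fun x => 2 ≤ dg G x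
  have nb1 : ∀ x, nb G 1 x = (L.filter fun y => G.Adj y x).card := by
    intro x
    unfold nb
    rw [← Set.ncard_coe_finset]
    congr 1
    ext y
    simp only [Set.mem_ofPred_eq, Finset.coe_filter, L, Finset.mem_filter, Finset.mem_univ,
      true_and]
    constructor
    · rintro ⟨h1, h2⟩; exact ⟨h2, h1.symm⟩
    · rintro ⟨h1, h2⟩; exact ⟨h2.symm, h1⟩
  have nb2 : ∀ x, nb G 2 x = (D.filter fun y => G.Adj y x).card := by
    intro x
    unfold nb
    rw [← Set.ncard_coe_finset]
    congr 1
    ext y
    simp only [Set.mem_ofPred_eq, Finset.coe_filter, D, Finset.mem_filter, Finset.mem_univ,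
      true_and]
    constructor
    · rintro ⟨h1, h2⟩; exact ⟨h2, h1.symm⟩
    · rintro ⟨h1, h2⟩; exact ⟨h2.symm, h1⟩
  -- leaves
  have hL : L.card = ∑ y ∈ DC, nb G 1 y := by
    have h1 := Finset.sum_card_bipartiteAbove_eq_sum_card_bipartiteBelow (s := L) (t := DC)
      (fun x y => G.Adj x y)
    have h2 : ∀ x ∈ L, (DC.bipartiteAbove (fun x y => G.Adj x y) x).card = 1 := by
      intro x hx
      have hx1 : dg G x = 1 := (Finset.mem_filter.1 hx).2
      have h3 : ((DC.bipartiteAbove (fun x y => G.Adj x y) x : Finset V) : Set V) =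
          G.neighborSet x := by
        ext y
        simp only [Finset.bipartiteAbove, Finset.coe_filter, Set.mem_ofPred_eq,
          SimpleGraph.mem_neighborSet, DC, Finset.mem_filter, Finset.mem_univ, true_and]
        exact ⟨fun h => h.2, fun h => ⟨hG.leaf x hx1 y h, h⟩⟩
      rw [← Set.ncard_coe_finset, h3]
      exact hx1
    rw [Finset.sum_congr rfl h2, Finset.sum_const, smul_eq_mul, mul_one] at h1
    rw [h1]
    exact Finset.sum_congr rfl fun y _ => (nb1 y).symm
  -- vertices of degree two
  have hD : D.card = ∑ y ∈ C, nb G 2 y := by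
    have h1 := Finset.sum_card_bipartiteAbove_eq_sum_card_bipartiteBelow (s := D) (t := C)
      (fun x y => G.Adj x y)
    have h2 : ∀ x ∈ D, (C.bipartiteAbove (fun x y => G.Adj x y) x).card = 1 := by
      intro x hx
      have hx1 : dg G x = 2 := (Finset.mem_filter.1 hx).2
      have h3 : ((C.bipartiteAbove (fun x y => G.Adj x y) x : Finset V) : Set V) =
          {y | G.Adj x y ∧ 3 ≤ dg G y} := by
        ext y
        simp only [Finset.bipartiteAbove, Finset.coe_filter, Set.mem_ofPred_eq, C,
          Finset.mem_filter, Finset.mem_univ, true_and]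
        exact and_comm
      rw [← Set.ncard_coe_finset, h3]
      exact (hG.mid x hx1).2
    rw [Finset.sum_congr rfl h2, Finset.sum_const, smul_eq_mul, mul_one] at h1
    rw [h1]
    exact Finset.sum_congr rfl fun y _ => (nb2 y).symm
  -- partitions
  have hDC : DC = D ∪ C := by
    ext x
    simp only [DC, D, C, Finset.mem_union, Finset.mem_filter, Finset.mem_univ, true_and]
    omega
  have hdis1 : Disjoint D C := by
    rw [Finset.disjoint_left]
    intro x h1 h2
    have h3 := (Finset.mem_filter.1 h1).2
    have h4 := (Finset.mem_filter.1 h2).2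
    omega
  have hV : (Finset.univ : Finset V) = L ∪ DC := by
    ext x
    simp only [DC, L, Finset.mem_union, Finset.mem_filter, Finset.mem_univ, true_and, true_iff]
    have := hG.pos x
    omega
  have hdis2 : Disjoint L DC := by
    rw [Finset.disjoint_left]
    intro x h1 h2
    have h3 := (Finset.mem_filter.1 h1).2
    have h4 := (Finset.mem_filter.1 h2).2
    omega
  have hcV : Nat.card V = L.card + (D.card + C.card) := by
    rw [Nat.card_eq_fintype_card, ← Finset.card_univ, hV, Finset.card_union_of_disjoint hdis2,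
      hDC, Finset.card_union_of_disjoint hdis1]
  have hcC : Nat.card {x // 3 ≤ dg G x} = C.card := by
    rw [Nat.card_eq_fintype_card, Fintype.card_subtype]
  have hD1 : ∑ y ∈ D, nb G 1 y = D.card := by
    rw [Finset.sum_congr rfl (fun y hy => (hG.mid y (Finset.mem_filter.1 hy).2).1),
      Finset.sum_const, smul_eq_mul, mul_one]
  have hC1 : ∑ y ∈ C, (nb G 1 y + 2 * nb G 2 y) = C.card * (2 * M) := by
    rw [Finset.sum_congr rfl (fun y hy => hG.cor y (Finset.mem_filter.1 hy).2),
      Finset.sum_const, smul_eq_mul]
  rw [hDC, Finset.sum_union hdis1, hD1] at hL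
  rw [Finset.sum_add_distrib, ← Finset.mul_sum, ← hD] at hC1
  rw [hcV, hcC]
  have : (2 * M + 1) * C.card = C.card * (2 * M) + C.card := by ring
  rw [this]
  omega

end Pool.Agent.H49.PU
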